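import Mathlib

/-!
Weakly contractive set-valued maps on a nonempty complete metric space, with closed bounded
nonempty values, have fixed points (a question of Amini-Harandi, 2010).
-/

set_option autoImplicit false

open Filter Topology Metric NNReal

namespace Pool.Agent.Results.MP_e93574_an.FixedPoint

/-- The class `Γ`: continuous, nondecreasing, subadditive maps `γ : [0, ∞) → [0, ∞)` with
`γ⁻¹ {0} = {0}`. -/
def IsGamma (γ : ℝ≥0 → ℝ≥0) : Prop :=
  Continuous γ ∧ Monotone γ ∧ (∀ s t, γ (s + t) ≤ γ s + γ t) ∧ ∀ t, γ t = 0 ↔ t = 0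

/-- The class `𝒜`: maps `θ : [0, ∞) → [0, ∞)` for which there are `ε₀ > 0` and `γ ∈ Γ` with
`θ t ≤ ε₀ → γ t ≤ θ t` for all `t`. -/
def IsClassA (θ : ℝ≥0 → ℝ≥0) : Prop :=
  ∃ ε₀ : ℝ≥0, 0 < ε₀ ∧ ∃ γ, IsGamma γ ∧ ∀ t, θ t ≤ ε₀ → γ t ≤ θ t

/-- `T` has values in the nonempty closed bounded subsets of `X`. -/
def ValuesCB {X : Type*} [MetricSpace X] (T : X → Set X) : Prop :=
  ∀ x, (T x).Nonempty ∧ IsClosed (T x) ∧ Bornology.IsBounded (T x)

/-- `T` is weakly contractive with respect to `θ`: the Hausdorff distance of `T x` and `T y` is at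
most `d(x, y) - θ (d(x, y))`. -/
def IsWeaklyContractive {X : Type*} [MetricSpace X] (θ : ℝ≥0 → ℝ≥0) (T : X → Set X) : Prop :=
  ∀ x y, hausdorffDist (T x) (T y) ≤ dist x y - (θ (nndist x y) : ℝ)

/-- A subadditive map has `γ (n t) ≤ n γ t`. -/
theorem sub_mul {γ : ℝ≥0 → ℝ≥0} (h : IsGamma γ) (t : ℝ≥0) (n : ℕ) : γ (n * t) ≤ n * γ t := by
  induction n with
  | zero => simp [(h.2.2.2 0).2 rfl]
  | succ n ih =>
    have h1 := h.2.2.1 (n * t) t
    have h2 : ((n + 1 : ℕ) : ℝ≥0) * t = n * t + t := by push_cast; ring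
    rw [h2]
    refine h1.trans ?_
    push_cast
    rw [add_mul, one_mul]
    gcongr

/-- The linear lower bound near zero. -/
theorem lower {θ : ℝ≥0 → ℝ≥0} (h : IsClassA θ) :
    ∃ c : ℝ, 0 < c ∧ ∀ t : ℝ≥0, c * min (t : ℝ) 1 ≤ θ t := by
  obtain ⟨e, he, γ, hγ, hle⟩ := h
  have h1 : 0 < γ 1 := by
    rw [pos_iff_ne_zero, Ne, hγ.2.2.2]
    exact one_ne_zero
  have h1' : (0 : ℝ) < γ 1 := by exact_mod_cast h1
  have he' : (0 : ℝ) < e := by exact_mod_cast he
  refine ⟨min ((γ 1 : ℝ) / 2) e, lt_min (by positivity) he', fun t => ?_⟩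
  have hmin0 : 0 ≤ min (t : ℝ) 1 := le_min t.coe_nonneg zero_le_one
  by_cases hcase : θ t ≤ e
  · have h2 : (γ t : ℝ) ≤ θ t := by exact_mod_cast hle t hcase
    refine le_trans ?_ h2
    have h3 : min ((γ 1 : ℝ) / 2) e * min (t : ℝ) 1 ≤ (γ 1 : ℝ) / 2 * min (t : ℝ) 1 :=
      mul_le_mul_of_nonneg_right (min_le_left _ _) hmin0
    refine h3.trans ?_
    rcases le_total (1 : ℝ≥0) t with ht | ht
    · have h4 : (γ 1 : ℝ) ≤ γ t := by exact_mod_cast hγ.2.1 ht
      have h5 : min (t : ℝ) 1 ≤ 1 := min_le_right _ _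
      nlinarith
    · rcases eq_or_ne t 0 with rfl | h0
      · simp
      have htpos : 0 < t := pos_iff_ne_zero.2 h0
      have htpos' : (0 : ℝ) < t := by exact_mod_cast htpos
      have ht' : (t : ℝ) ≤ 1 := by exact_mod_cast ht
      obtain ⟨n, hn⟩ : ∃ n : ℕ, n = ⌈(1 : ℝ) / t⌉₊ := ⟨_, rfl⟩
      have hn1 : (1 : ℝ) / t ≤ n := by rw [hn]; exact Nat.le_ceil _
      have hn2 : (n : ℝ) < 1 / t + 1 := by
        rw [hn]; exact Nat.ceil_lt_add_one (by positivity)
      have h6 : (1 : ℝ) ≤ n * t := by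
        rw [div_le_iff₀ htpos'] at hn1
        exact hn1
      have h7 : (1 : ℝ≥0) ≤ n * t := by exact_mod_cast h6
      have h8 : γ 1 ≤ n * γ t := (hγ.2.1 h7).trans (sub_mul hγ t n)
      have h9 : (γ 1 : ℝ) ≤ n * γ t := by exact_mod_cast h8
      have h10 : (n : ℝ) * t ≤ 2 := by
        have : (n : ℝ) * t < (1 / t + 1) * t := mul_lt_mul_of_pos_right hn2 htpos'
        have h11 : ((1 : ℝ) / t + 1) * t = 1 + t := by field_simp
        linarith
      rw [min_eq_left ht']
      have h12 : (0 : ℝ) ≤ γ t := (γ t).coe_nonneg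
      nlinarith
  · have h2 : (e : ℝ) ≤ θ t := by exact_mod_cast (not_le.1 hcase).le
    have h3 : min ((γ 1 : ℝ) / 2) e * min (t : ℝ) 1 ≤ e * min (t : ℝ) 1 :=
      mul_le_mul_of_nonneg_right (min_le_right _ _) hmin0
    have h5 : min (t : ℝ) 1 ≤ 1 := min_le_right _ _
    nlinarith

/-- Every weakly contractive set-valued map on a nonempty complete metric space has a fixed
point. -/
theorem result {X : Type*} [MetricSpace X] [CompleteSpace X] [Nonempty X] {θ : ℝ≥0 → ℝ≥0}
    (hθ : IsClassA θ) {T : X → Set X} (hT : ValuesCB T) (hw : IsWeaklyContractive θ T) :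
    ∃ x, x ∈ T x := by
  obtain ⟨c, hc, hlow⟩ := lower hθ
  by_contra hno
  push Not at hno
  have hfin : ∀ x y, hausdorffEDist (T x) (T y) ≠ ⊤ := fun x y =>
    hausdorffEDist_ne_top_of_nonempty_of_bounded (hT x).1 (hT y).1 (hT x).2.2 (hT y).2.2
  -- one step of the iteration
  have hstep : ∀ x y, y ∈ T x → ∃ z, z ∈ T y ∧
      dist y z ≤ dist x y - c / 2 * min (dist x y) 1 := by
    intro x y hy
    have hxy : 0 < dist x y := by
      rw [dist_pos]
      rintro rfl
      exact hno x hy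
    have hm : 0 < min (dist x y) 1 := lt_min hxy one_pos
    have h1 : hausdorffDist (T x) (T y) ≤ dist x y - c * min (dist x y) 1 := by
      have h2 := hlow (nndist x y)
      rw [coe_nndist] at h2
      exact (hw x y).trans (by linarith)
    have h3 : hausdorffDist (T x) (T y) < dist x y - c / 2 * min (dist x y) 1 := by
      have : 0 < c / 2 * min (dist x y) 1 := by positivity
      linarith
    obtain ⟨z, hz, hz'⟩ := exists_dist_lt_of_hausdorffDist_lt hy h3 (hfin x y)
    exact ⟨z, hz, hz'.le⟩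
  choose! g hg hgd using hstep
  obtain ⟨x₀⟩ := ‹Nonempty X›
  obtain ⟨x₁, hx₁⟩ := (hT x₀).1
  let P : ℕ → X × X := fun n => Nat.rec (x₀, x₁) (fun _ p => (p.2, g p.1 p.2)) n
  have hP0 : P 0 = (x₀, x₁) := rfl
  have hPs : ∀ n, P (n + 1) = ((P n).2, g (P n).1 (P n).2) := fun n => rfl
  have hmem : ∀ n, (P n).2 ∈ T (P n).1 := by
    intro n
    induction n with
    | zero => exact hx₁
    | succ n ih => rw [hPs]; exact hg _ _ ih
  set r : ℕ → ℝ := fun n => dist (P n).1 (P n).2 with hr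
  have hrec : ∀ n, r (n + 1) ≤ r n - c / 2 * min (r n) 1 := by
    intro n
    have h1 := hgd _ _ (hmem n)
    simp only [hr]
    rw [hPs]
    exact h1
  have hr0 : ∀ n, 0 ≤ r n := fun n => dist_nonneg
  have hsum : Summable fun n => min (r n) 1 := by
    refine summable_of_sum_range_le (c := 2 / c * r 0) (fun n => le_min (hr0 n) zero_le_one) ?_
    intro n
    have h1 : r n + c / 2 * ∑ i ∈ Finset.range n, min (r i) 1 ≤ r 0 := by
      induction n with
      | zero => simp
      | succ n ih =>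
        rw [Finset.sum_range_succ]
        have := hrec n
        linarith [mul_add (c / 2) (∑ i ∈ Finset.range n, min (r i) 1) (min (r n) 1)]
    have h2 := hr0 n
    have h3 : c / 2 * ∑ i ∈ Finset.range n, min (r i) 1 ≤ r 0 := by linarith
    rw [div_mul_eq_mul_div, le_div_iff₀ hc]
    linarith
  have hlim0 : Tendsto (fun n => min (r n) 1) atTop (𝓝 0) := hsum.tendsto_atTop_zero
  have hev : ∀ᶠ n in atTop, min (r n) 1 = r n := by
    filter_upwards [hlim0.eventually (gt_mem_nhds one_pos)] with n hn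
    rcases min_lt_iff.1 hn with h | h
    · exact min_eq_left h.le
    · exact absurd h (lt_irrefl _)
  have hsr : Summable r := by
    obtain ⟨N, hN⟩ := eventually_atTop.1 hev
    refine (summable_nat_add_iff (f := r) N).1 ?_
    refine ((summable_nat_add_iff (f := fun n => min (r n) 1) N).2 hsum).congr ?_
    intro n
    exact hN (n + N) (Nat.le_add_left _ _)
  have hdist : ∀ n, dist (P n).1 (P (n + 1)).1 = r n := fun n => by rw [hPs]
  have hcau : CauchySeq fun n => (P n).1 := by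
    refine cauchySeq_of_summable_dist ?_
    simpa only [hdist] using hsr
  obtain ⟨x, hx⟩ := cauchySeq_tendsto_of_complete hcau
  refine hno x ?_
  rw [(hT x).2.1.mem_iff_infDist_zero (hT x).1]
  have hx' : Tendsto (fun n => (P (n + 1)).1) atTop (𝓝 x) := hx.comp (tendsto_add_atTop_nat 1)
  have h1 : ∀ n, infDist x (T x) ≤ dist x (P (n + 1)).1 + dist (P n).1 x := by
    intro n
    have h2 : infDist x (T x) ≤ infDist (P (n + 1)).1 (T x) + dist x (P (n + 1)).1 :=
      infDist_le_infDist_add_dist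
    have h3 : (P (n + 1)).1 ∈ T (P n).1 := by rw [hPs]; exact hmem n
    have h4 := infDist_le_hausdorffDist_of_mem h3 (hfin (P n).1 x)
    have h5 := hw (P n).1 x
    have h6 : (0 : ℝ) ≤ θ (nndist (P n).1 x) := NNReal.coe_nonneg _
    linarith
  have h2 : Tendsto (fun n => dist x (P (n + 1)).1 + dist (P n).1 x) atTop (𝓝 (0 + 0)) := by
    refine Tendsto.add ?_ ?_
    · have := (tendsto_const_nhds (x := x)).dist hx'
      simpa using this
    · have := hx.dist (tendsto_const_nhds (x := x))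
      simpa using this
  rw [add_zero] at h2
  exact le_antisymm (ge_of_tendsto' h2 h1) infDist_nonneg

end Pool.Agent.Results.MP_e93574_an.FixedPoint
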